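import Pool.Agent.TH689.QXBase

/-!
# Randomized convex programs need `N ^ 2` constraints for 3SUM with random numbers

The definitions used in the statement (in `Pool/Agent/TH689/QXBase.lean`,
`Pool/Agent/TH689/QXDefs.lean` and `Pool/Agent/TH689/GXDefs.lean`):

* There are three lists of `N` integers with `T` digits in base `2 * H`. An instance `y` gives the
  digits: the `t`-th digit of the number `valA y i` of the first list is `y t (0, i)`, the `t`-th
  digit of the number `valB y j` of the second list is `y t (1, j)`, and the number `valC y k` of the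
  third list is minus the number whose `t`-th digit is `y t (2, k) + y t (3, k)`; here
  `y t (l, i)` is a number smaller than `H`.
* `Off (y t) (i, j, k)`: the `t`-th digits of the three numbers with the indices `i, j, k` do
  not balance. The sum of the three numbers is zero if and only if this holds for no `t` (last part
  of the theorem).
* `Scheme X 𝒞 a s r D`: the schemes of mixed-integer convex programming relaxations of the problem
  to find a triple with the sum zero, with `a` binary variables, `s` convex constraints of dimension
  `D` which are common to all instances and `r` such constraints for every position of the digits,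
  which may depend in any way on the digits of all numbers at this position. A constraint says that
  the value of an affine map to `ℝ ^ D` lies in an arbitrary convex set. There are any number of real
  variables and linear equations. Every triple has a vector, about which nothing is assumed.
* `P.CorrectAt Off x`: the vector of the triple `x` satisfies the common constraints,
  the constraints of all positions of digits which balance for `x`, and its binary variables are `0`
  or `1`; so it is a solution of the relaxation of every instance in which `x` has the sum zero.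
* `Rejects P Off y δ`: the relaxation claims, with an error `δ`, that there is no triple
  with the sum zero in the instance `y`.
* `P.correctRate Off`: the fraction of the triples at which `P` is correct.
* `rejectRate P Off T δ`: the fraction of the instances with `T` digits which are rejected.
* `possible H`: the fraction of the digits `b, u, v < H` for which `a + b = u + v` for some digit
  `a < H`.
-/

set_option autoImplicit false

namespace Pool.Agent.Results.MP_8f87b2_lc.ConvexProgramsRandomNumbers

open Pool.Agent.TH689.GX Pool.Agent.TH689.QX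

/-- Let `H, N, T ≥ 1` and `0 < δ < 1`. Let `P ω` be a randomized scheme of mixed-integer convex
programming relaxations of 3SUM for numbers with `T` digits in base `2 * H`, where `ω` has the
probability `p ω`, and with `2 ^ a * (s + (r + 1) * T + 1) * (D + 2) ≤ M`. Then the probability that
it is correct at a random triple and that, independently, it rejects random numbers with the error
`δ` is at most `4 * T ^ 3 * (H + N) * M / (N ^ 3 * δ ^ 2)`. For numbers with `T = 4` digits in base
`2 * N` this is `512 * M / (N ^ 2 * δ ^ 2)`.

Conversely, for `H, N ≥ 1` and every `S ≤ N ^ 2` there is a scheme with `S` linear inequalities and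
one more for every position of the digits, which is correct at a fraction `S / N ^ 2` of the triples
and rejects, with every error `δ < 1 / T`, all but a fraction `N ^ 2 * possible H ^ T` of the
instances; `possible 2 = 3 / 4`. For every `S ≤ N ^ 3` there is such a scheme which is correct at a
fraction `S / N ^ 3` of the triples and rejects every instance without triples with the sum zero, and
so all but a fraction `N ^ 3 / H ^ T` of the instances (`1 / N` for `T = 4` and `H = N`). -/
theorem result :
    (∀ H N T : ℕ, 0 < H → 0 < N → 1 ≤ T → ∀ δ : ℝ, 0 < δ → δ < 1 →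
      ∀ (Ω : Type) [Fintype Ω] (p : Ω → ℝ), (∀ ω, 0 ≤ p ω) → ∑ ω, p ω = 1 →
      ∀ (a s r D : Ω → ℕ) (M : ℝ),
        (∀ ω, (2 : ℝ) ^ a ω * (s ω + (r ω + 1) * T + 1) * (D ω + 2) ≤ M) →
      ∀ P : ∀ ω, Scheme (Fin N × Fin N × Fin N) (Fin 4 × Fin N → Fin H) (a ω) (s ω) (r ω) (D ω),
        ∑ ω, p ω * ((P ω).correctRate Off * rejectRate (P ω) Off T δ)
          ≤ 4 * T ^ 3 * (H + N) * M / (N ^ 3 * δ ^ 2)) ∧
    (∀ H N : ℕ, 0 < H → 0 < N → ∀ S ≤ N ^ 2,
      ∃ P : Scheme (Fin N × Fin N × Fin N) (Fin 4 × Fin N → Fin H) 0 S 1 1,
        P.correctRate Off = (S : ℝ) / N ^ 2 ∧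
        ∀ (T : ℕ) (δ : ℝ), 0 ≤ δ → T * δ < 1 →
          1 - (N : ℝ) ^ 2 * possible H ^ T ≤ rejectRate P Off T δ) ∧
    (∀ H N : ℕ, 0 < H → 0 < N → ∀ S ≤ N ^ 3,
      ∃ P : Scheme (Fin N × Fin N × Fin N) (Fin 4 × Fin N → Fin H) 0 S 1 1,
        P.correctRate Off = (S : ℝ) / N ^ 3 ∧
        ∀ (T : ℕ) (δ : ℝ), 0 ≤ δ → T * δ < 1 →
          (∀ y : Fin T → (Fin 4 × Fin N → Fin H),
            (∀ i j k, valA y i + valB y j + valC y k ≠ 0) → Rejects P Off y δ) ∧
          1 - (N : ℝ) ^ 3 * (1 / H) ^ T ≤ rejectRate P Off T δ) ∧
    possible 2 = 3 / 4 ∧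
    ∀ (H N T : ℕ) (y : Fin T → (Fin 4 × Fin N → Fin H)) (i j k : Fin N),
      valA y i + valB y j + valC y k = 0 ↔ ∀ t, ¬ Off (y t) (i, j, k) := by
  refine ⟨?_, fun H N hH hN S hS => base_upper hH hN S hS, ?_, possible_two,
    fun H N T y i j k => val_iff y i j k⟩
  · intro H N T hH hN hT δ hδ0 hδ1 Ω _ p hp hp1 a s r D M hM P
    have : Nonempty (Fin N × Fin N × Fin N) := ⟨(⟨0, hN⟩, ⟨0, hN⟩, ⟨0, hN⟩)⟩
    have : Nonempty (Fin H) := ⟨⟨0, hH⟩⟩
    have h1 := learn_random (Off (H := H) (N := N)) (twist_base hH hN) hT hδ0 hδ1 Ω p hp
      hp1 a s r D M hM P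
    refine h1.trans (le_of_eq ?_)
    have hN' : (N : ℝ) ≠ 0 := by exact_mod_cast hN.ne'
    field_simp
    ring
  · intro H N hH hN S hS
    have : Nonempty (Fin N × Fin N × Fin N) := ⟨(⟨0, hN⟩, ⟨0, hN⟩, ⟨0, hN⟩)⟩
    have : Nonempty (Fin H) := ⟨⟨0, hH⟩⟩
    have hcard : Fintype.card (Fin N × Fin N × Fin N) = N ^ 3 := by
      rw [Fintype.card_prod, Fintype.card_prod, Fintype.card_fin]
      ring
    obtain ⟨P, h1, h2⟩ := learn_upper (Off (H := H) (N := N)) (1 / H)
      (off_count hH) S (by rw [hcard]; exact hS)
    refine ⟨P, ?_, ?_⟩
    · rw [h1, hcard]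
      push_cast
      rfl
    · intro T δ hδ0 hδ
      obtain ⟨h3, h4⟩ := h2 T δ hδ0 hδ
      refine ⟨?_, ?_⟩
      · intro y hy
        apply h3 y
        rintro ⟨i, j, k⟩
        by_contra hcon
        push Not at hcon
        exact hy i j k ((val_iff y i j k).2 hcon)
      · rw [hcard] at h4
        refine le_trans (le_of_eq ?_) h4
        push_cast
        rfl

end Pool.Agent.Results.MP_8f87b2_lc.ConvexProgramsRandomNumbers
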