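import Mathlib
import Pool.Agent.TH272.Shr.ZeroSumHeavy

/-!
# 3SUM: circuits in which shared gates depend on few numbers

The input consists of `2 n` distinct integers of absolute value at most `(2 n) ^ 3`; the question is
whether three of them have the sum zero. The items of the input are the first `n` numbers and the
list of the other `n` numbers.

A circuit over the full binary basis is written as a sequence of formulas, one for each gate whose
value is used more than once (a shared gate) and one for the output. The leaves are tests of the
input, that is, arbitrary Boolean functions of one item (part 1), or of `w` words of length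
`c log₂ (2 n)`, where each word is an arbitrary function of one item (part 2). Formulas are the
circuits without shared gates. In general there may be any number of shared gates and references to
them. A shared gate is heavy (for `d`) if it depends, directly or by other shared gates, on more than
`d` of the first `n` numbers; its dependence on the list of the last `n` numbers does not matter.

* For random circuits with error probability at most `1 / 3` and one item in each test, and for all
  `d`: `n ^ 2 log₂ n ≤ 400 (leaves + d (references + shared gates) + n (references to heavy gates +
  heavy gates))` (expected numbers). So the size is at least of order `n ^ 2 log₂ n / d` without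
  heavy gates, and circuits with `leaves + d (references + shared gates) ≤ n ^ 2 log₂ n / 800` have at
  least `n log₂ n / 800` heavy gates and references to them.
* For tests of `w` words,
  `n ^ 2 log₂ n ≤ 134 c w ^ 2 log₂ n leaves + 400 (…)` with the same `…`.

Proof. By the coding of helper697 and helper457 (`Pool.Agent.TH457.Ary.ZeroSum`) each of the first `n`
numbers can ask for about `n log₂ n / 4` bits of the list. If the other numbers are fixed, the
circuit has at most `2 ^ (1 + s) 16 ^ r (16 q ^ (w - 1)) ^ l` subfunctions, where `s` is the number
of shared gates that depend on the number, `r` is the number of references to them, and `l` is the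
number of leaves that see the number; the references to the other shared gates are constants. A
shared gate that is not heavy is counted for at most `d` numbers, a heavy one for at most `n`.
-/

set_option autoImplicit false

namespace Pool.Agent.Results.MP_8f87b2_lc.LocalSharing

open Pool.Agent.TH697.Form (IsProb)
open Pool.Agent.TH697.Row (ApproximatesOn)
open Pool.Agent.TH697.Form.ThreeSum (Item Valid)
open Pool.Agent.TH457.Ary.ZeroSum (zeroSum)
open Pool.Agent.TH272.Shr (Circuit mean)
open Pool.Agent.TH272.Shr.ZeroSum (numbers)

theorem result : ∀ n d : ℕ, 400 ≤ n → ∀ (Ω : Type) [Fintype Ω] (μ : Ω → ℝ), IsProb μ →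
    (∀ C : Ω → Circuit (Option (Fin n)) (Item n n) 1 2,
      ApproximatesOn μ (fun ω => (C ω).eval) (Valid n n) (zeroSum n) →
      (n : ℝ) ^ 2 * Nat.log 2 n ≤ 400 * (mean μ (fun ω => (C ω).leaves) +
        d * (mean μ (fun ω => (C ω).refs) + mean μ (fun ω => (C ω).shared)) +
        n * (mean μ (fun ω => (C ω).heavyRefs (numbers n) d) +
          mean μ (fun ω => (C ω).heavyGates (numbers n) d)))) ∧
    (∀ c w : ℕ, 1 ≤ c → 1 ≤ w →
      ∀ C : Ω → Circuit (Option (Fin n)) (Item n n) w ((2 * n) ^ c),
      ApproximatesOn μ (fun ω => (C ω).eval) (Valid n n) (zeroSum n) →
      (n : ℝ) ^ 2 * Nat.log 2 n ≤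
        134 * c * w ^ 2 * Nat.log 2 n * mean μ (fun ω => (C ω).leaves) +
          400 * (d * (mean μ (fun ω => (C ω).refs) + mean μ (fun ω => (C ω).shared)) +
            n * (mean μ (fun ω => (C ω).heavyRefs (numbers n) d) +
              mean μ (fun ω => (C ω).heavyGates (numbers n) d)))) :=
  fun _ d hn _ _ μ hμ =>
    ⟨fun C hC => Pool.Agent.TH272.Shr.ZeroSum.single_heavy hn μ hμ C hC d,
      fun _ _ hc hw C hC => Pool.Agent.TH272.Shr.ZeroSum.main_heavy hn hc hw μ hμ C hC d⟩

end Pool.Agent.Results.MP_8f87b2_lc.LocalSharing
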