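import Pool.Agent.TH457.HT.ThreeSumR

/-!
# Integer 3SUM: randomized machines with slow heads

The list of `N` distinct integers of absolute value at most `N ^ 4` is given as a word of
`n = N (w + 1)` bits.  Randomized nonuniform programs with `k` two-way heads, which move by at most
one position in a step, with error probability at most `1 / 20000` on both sides, with at most
`2 ^ S` configurations and with at most `T` steps, which decide integer 3SUM, satisfy
`(k T + n) ^ 2 * k * (S + 1) * (w + 1) ≥ n ^ 3 / (1.1 * 10 ^ 6)`.  So randomized Turing machines with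
several heads on the input tape need time `N ^ (3 / 2 - o(1))` for 3SUM if they use space
`N ^ o(1)`, and time `N ^ (1 + c)` if they use space `N ^ (1 - 2 c - o(1))`.

Proof. The general theorem on blocks (`Pool.Agent.TH457.HT.Gen3`) says that such programs cannot
decide whether the `m` numbers `v_j < N ^ 2`, given by the blocks of a word, are distinct.  Block `j`
consists of `3 N ^ 3 + y_j`, `9 N ^ 3 - y_j` and `- 12 N ^ 3 - (j + 1)` with `y_j = 2 N v_j + j`; the
remaining integers are `- 12 N ^ 3 - t` with `t > 3 m`.  Three integers have the sum zero iff they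
are of the three kinds and `y_i - y_j = t`, which is possible iff `v_i = v_j` for some `i ≠ j`.
-/

set_option autoImplicit false

namespace Pool.Agent.Results.MP_8f87b2_lc.SlowHeads

open Pool.Agent.TH457.HT

open Classical in
/-- Let `p`, `P` be a random program with `k ≥ 1` two-way heads for words of `N (w + 1)` bits and
with at most `2 ^ S` configurations.  If for each list of `N` distinct integers of absolute value at
most `N ^ 4` the right answer to the question whether three of them have the sum zero is given
within `T` steps with probability at least `1 - 1 / 20000`, then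
`n ^ 3 ≤ 1100000 * k * (S + 1) * (w + 1) * (k * T + n) ^ 2` for `n = N (w + 1)`. -/
theorem result (N w k T S : ℕ) (Ω : Type) [Fintype Ω] (p : Ω → ℝ)
    (P : Ω → DetProg Bool (N * (w + 1)) k)
    (hp : ∀ ω, 0 ≤ p ω) (hp1 : ∑ ω, p ω = 1) (hk : 1 ≤ k)
    (hS : ∀ ω, Fintype.card (P ω).Q * (N * (w + 1)) ^ k ≤ 2 ^ S)
    (h : ∀ x : Fin N → ℤ, Function.Injective x → (∀ i, |x i| ≤ (N : ℤ) ^ 4) →
      1 - 1 / 20000 ≤ prob p P T (zword N w x) (decide (Has3 x))) :
    (N * (w + 1)) ^ 3 ≤ 1100000 * (k * (S + 1) * (w + 1) * (k * T + N * (w + 1)) ^ 2) :=
  threeSum_rand N w p hp hp1 P T S hk hS h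

end Pool.Agent.Results.MP_8f87b2_lc.SlowHeads
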