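import Mathlib
import Pool.Agent.TH457.Ary.ZeroSum

/-!
# 3SUM: tests which see words

The input consists of `2 n` distinct integers of absolute value at most `(2 n) ^ 3`; the question is
whether three of them have the sum zero. The items of the input are the first `n` numbers and the
list of the other `n` numbers. A test is an arbitrary function of `w` words of length
`c log₂ (2 n)`, where each word is an arbitrary function of one item. So for `w = 3` and `c = 12` a
test can look at any three of the numbers, or at two of the first `n` numbers and at any
`12 log₂ (2 n)` bits of information about all the last numbers. We show that random formulas over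
such tests (with arbitrary functions of two bits as gates) and random branching programs over such
tests need `n ^ 2 / (200 c w ^ 2)` leaves and `n ^ 2 / (1000 c w ^ 2)` nodes, if the error probability
is at most `1 / 3`.

Proof. By the coding of helper697 (`Pool.Agent.TH697.Form.ThreeSum`) each of the first `n` numbers can
ask for about `n log₂ n / 4` bits of the list. If `r` leaves see the number, then only
`2 (16 q ^ (w - 1)) ^ r`, `q = (2 n) ^ c`, functions of it arise when the other numbers are fixed.
-/

set_option autoImplicit false

namespace Pool.Agent.Results.MP_8f87b2_lc.WordTests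

open Pool.Agent.TH697.Form (IsProb)
open Pool.Agent.TH697.Row (ApproximatesOn)
open Pool.Agent.TH697.Form.ThreeSum (Item Valid)
open Pool.Agent.TH457.Ary.ZeroSum (zeroSum)
open Pool.Agent.TH457.Ary (Fml Program expSize)

theorem result : ∀ n c w : ℕ, 400 ≤ n → 1 ≤ c → 1 ≤ w →
    ∀ (Ω : Type) [Fintype Ω] (μ : Ω → ℝ), IsProb μ →
      (∀ F : Ω → Fml (Option (Fin n)) (Item n n) w ((2 * n) ^ c),
        ApproximatesOn μ (fun ω => (F ω).eval) (Valid n n) (zeroSum n) →
        (n : ℝ) ^ 2 ≤ 200 * c * w ^ 2 * expSize μ F) ∧
      (∀ (s : ℕ) (B : Ω → Program (Option (Fin n)) (Item n n) w ((2 * n) ^ c) s),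
        ApproximatesOn μ (fun ω => (B ω).eval) (Valid n n) (zeroSum n) →
        (n : ℝ) ^ 2 ≤ 1000 * c * w ^ 2 * s) :=
  fun _ _ _ hn hc hw _ _ μ hμ =>
    ⟨fun F hF => Pool.Agent.TH457.Ary.ZeroSum.formula_bound hn hc hw μ hμ F hF,
      fun s B hB => Pool.Agent.TH457.Ary.ZeroSum.program_bound hn hc hw μ hμ s B hB⟩

end Pool.Agent.Results.MP_8f87b2_lc.WordTests
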